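import Pool.Agent.H163Z.ABK.Seq

/-! Every wqo is a countable union of finite-dimensional pieces. -/

namespace Pool.Agent.H163Z.ABK

inductive Sh : Type
  | leaf : Sh
  | node : Sh → Sh → Sh

def Sh.enc : Sh → ℕ
  | .leaf => 0
  | .node s t => Nat.pair s.enc t.enc + 1

lemma Sh.enc_inj : ∀ s t : Sh, s.enc = t.enc → s = t
  | .leaf, .leaf, _ => rfl
  | .leaf, .node _ _, h => by simp [Sh.enc] at h
  | .node _ _, .leaf, h => by simp [Sh.enc] at h
  | .node s t, .node s' t', h => by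
    simp only [Sh.enc, Nat.add_right_cancel_iff, Nat.pair_eq_pair] at h
    rw [Sh.enc_inj s s' h.1, Sh.enc_inj t t' h.2]

instance shCountable : Countable Sh := ⟨⟨Sh.enc, fun s t h => Sh.enc_inj s t h⟩⟩

variable {P : Type} [Preorder P]

lemma fin_basis (hP : ∀ g : ℕ → P, ∃ m n, m < n ∧ g m ≤ g n) (A : Set P) :
    ∃ l : List P, (∀ z ∈ l, z ∈ A) ∧ ∀ a ∈ A, ∃ z ∈ l, z ≤ a := by
  by_contra hn
  push Not at hn
  have h1 : ∀ l : {l : List P // ∀ z ∈ l, z ∈ A}, ∃ a ∈ A, ∀ z ∈ l.1, ¬ z ≤ a :=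
    fun l => hn l.1 l.2
  choose nx hA hnx using h1
  let L : ℕ → {l : List P // ∀ z ∈ l, z ∈ A} := fun n =>
    Nat.rec ⟨[], by simp⟩ (fun _ l => ⟨nx l :: l.1, by
      intro z hz
      rcases List.mem_cons.1 hz with rfl | hz
      · exact hA l
      · exact l.2 z hz⟩) n
  have hL : ∀ n, (L (n + 1)).1 = nx (L n) :: (L n).1 := fun n => rfl
  have hm : ∀ m n, m < n → nx (L m) ∈ (L n).1 := by
    intro m n hmn
    induction n, hmn using Nat.le_induction with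
    | base => rw [hL]; simp
    | succ n _ ih => rw [hL]; exact List.mem_cons_of_mem _ ih
  obtain ⟨m, n, hmn, h⟩ := hP fun n => nx (L n)
  exact hnx _ _ (hm m n hmn) h

def LS (F : P → List P) : Sh → Set (List P)
  | .leaf => {[]}
  | .node s t => {l | ∃ y l', l = y :: l' ∧ F y ∈ LS F s ∧ l' ∈ LS F t}

lemma forall₂_mem {R : P → P → Prop} {l l' : List P} (h : List.Forall₂ R l l') :
    ∀ z' ∈ l', ∃ z ∈ l, R z z' := by
  induction h with
  | nil => simp
  | cons h _ ih =>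
    intro z' hz'
    rcases List.mem_cons.1 hz' with rfl | hz'
    · exact ⟨_, List.mem_cons_self, h⟩
    · obtain ⟨z, hz, h'⟩ := ih z' hz'
      exact ⟨z, List.mem_cons_of_mem _ hz, h'⟩

lemma ls_fd [Inhabited P] (r : P → P → Prop) (htri : ∀ a b, ¬ r b a → a = b ∨ r a b)
    (F : P → List P) (hF1 : ∀ y, ∀ z ∈ F y, ¬ z ≤ y)
    (hF2 : ∀ y a, r a y → ¬ a ≤ y → ∃ z ∈ F y, z ≤ a) (s : Sh) :
    ∃ (ι : Type) (_ : Finite ι) (g : ι → List P → P), ∀ l ∈ LS F s, ∀ l' ∈ LS F s,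
      (∀ i, ¬ r (g i l') (g i l)) → List.Forall₂ (· ≤ ·) l l' := by
  induction s with
  | leaf =>
    refine ⟨Empty, inferInstance, fun i => i.elim, ?_⟩
    rintro l rfl l' rfl -
    exact List.Forall₂.nil
  | node s t ihs iht =>
    obtain ⟨ι, _, g, hg⟩ := ihs
    obtain ⟨κ, _, k, hk⟩ := iht
    refine ⟨Option (ι ⊕ κ), inferInstance, fun i l =>
      match i with
      | none => l.headI
      | some (Sum.inl i) => g i (F l.headI)
      | some (Sum.inr j) => k j l.tail, ?_⟩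
    rintro _ ⟨y, l, rfl, h1, h2⟩ _ ⟨y', l', rfl, h1', h2'⟩ H
    refine List.Forall₂.cons ?_ (hk l h2 l' h2' fun j => H (some (Sum.inr j)))
    have h3 := hg _ h1 _ h1' fun i => H (some (Sum.inl i))
    rcases htri y y' (H none) with rfl | h4
    · exact le_rfl
    · by_contra h5
      obtain ⟨z', hz', h6⟩ := hF2 y' y h4 h5
      obtain ⟨z, hz, h7⟩ := forall₂_mem h3 z' hz'
      exact hF1 y z hz (h7.trans h6)

omit [Preorder P] in
lemma ls_cover (r : P → P → Prop) (hr : WellFounded r) (F : P → List P)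
    (hF : ∀ y, ∀ z ∈ F y, r z y) (y : P) : ∃ s, F y ∈ LS F s := by
  induction y using hr.induction with
  | h y ih =>
    have : ∀ l : List P, (∀ z ∈ l, r z y) → ∃ s, l ∈ LS F s := by
      intro l
      induction l with
      | nil => exact fun _ => ⟨.leaf, rfl⟩
      | cons z l ihl =>
        intro h
        obtain ⟨s, hs⟩ := ih z (h z List.mem_cons_self)
        obtain ⟨t, ht⟩ := ihl fun w hw => h w (List.mem_cons_of_mem _ hw)
        exact ⟨.node s t, z, l, rfl, hs, ht⟩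
    exact this _ (hF y)

theorem partition (hP : ∀ g : ℕ → P, ∃ m n, m < n ∧ g m ≤ g n) :
    ∃ Q : ℕ → Set P, (⋃ i, Q i) = Set.univ ∧ ∀ i, FD (Q i) := by
  rcases isEmpty_or_nonempty P with hE | ⟨⟨p0⟩⟩
  · refine ⟨fun _ => Set.univ, Set.iUnion_const _, fun _ => ⟨Empty, Empty, inferInstance,
      fun _ _ => False, fun i => i.elim, ⟨fun a => a.elim⟩, fun p => hE.elim p.1⟩⟩
  letI : Inhabited P := ⟨p0⟩
  let r : P → P → Prop := WellOrderingRel
  have hr : WellFounded r := WellOrderingRel.isWellOrder.toIsWellFounded.wf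
  have htri : ∀ a b, ¬ r b a → a = b ∨ r a b := by
    intro a b h
    rcases trichotomous_of r a b with h1 | h1 | h1
    · exact Or.inr h1
    · exact Or.inl h1
    · exact (h h1).elim
  choose F hF1 hF2 using fun y => fin_basis hP {z | r z y ∧ ¬ z ≤ y}
  have : Nonempty Sh := ⟨.leaf⟩
  obtain ⟨e, he⟩ := exists_surjective_nat Sh
  refine ⟨fun i => {y | F y ∈ LS F (e i)}, ?_, fun i => ?_⟩
  · rw [Set.eq_univ_iff_forall]
    intro y
    obtain ⟨s, hs⟩ := ls_cover r hr F (fun y z hz => (hF1 y z hz).1) y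
    obtain ⟨i, rfl⟩ := he s
    exact Set.mem_iUnion.2 ⟨i, hs⟩
  · obtain ⟨ι, _, g, hg⟩ := ls_fd r htri F (fun y z hz => (hF1 y z hz).2)
      (fun y a h1 h2 => hF2 y a ⟨h1, h2⟩) (.node (e i) .leaf)
    refine ⟨ι, P, inferInstance, r, fun j q => g j [q.1], hr, fun p q h => ?_⟩
    have := hg [p.1] ⟨p.1, [], rfl, p.2, rfl⟩ [q.1] ⟨q.1, [], rfl, q.2, rfl⟩ h
    cases this with
    | cons h _ => exact h

theorem main (hP : ∀ g : ℕ → P, ∃ m n, m < n ∧ g m ≤ g n) :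
    ∃ Q : ℕ → Set P, (⋃ i, Q i) = Set.univ ∧
        ∀ i, ∀ (o : ℕ → Ordinal.{0}) (f : ∀ n, Set.Iio (o n) → P),
          (∀ n, Countable (Set.Iio (o n))) →
          (∀ n x, f n x ∈ Q i) →
          ∃ m n, m < n ∧ ∃ h : Set.Iio (o m) → Set.Iio (o n),
            StrictMono h ∧ ∀ x, f m x ≤ f n (h x) := by
  classical
  obtain ⟨Q, hQ, hFD⟩ := partition hP
  refine ⟨Q, hQ, fun i o f hc hf => ?_⟩
  by_cases h0 : o 0 = 0
  · have : IsEmpty (Set.Iio (o 0)) := ⟨fun x => by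
      have h1 : x.1 < o 0 := x.2
      exact absurd (h1.trans_eq h0) (not_lt.2 zero_le)⟩
    exact ⟨0, 1, one_pos, fun x => this.elim x, fun x => this.elim x, fun x => this.elim x⟩
  · let q0 : Q i := ⟨f 0 ⟨0, pos_iff_ne_zero.2 h0⟩, hf _ _⟩
    let F : ℕ → O → Q i := fun n x => if hx : x < o n then ⟨f n ⟨x, hx⟩, hf _ _⟩ else q0
    obtain ⟨m, n, hmn, h, h1, h2⟩ := seq_wqo (hFD i) o F hc
    refine ⟨m, n, hmn, fun x => ⟨h x.1, (h2 x.1 ⟨zero_le, x.2⟩).1.2⟩,
      fun x y hxy => h1 ⟨zero_le, x.2⟩ ⟨zero_le, y.2⟩ hxy, fun x => ?_⟩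
    have h3 := (h2 x.1 ⟨zero_le, x.2⟩).2
    have hx : x.1 < o m := x.2
    have hy : h x.1 < o n := (h2 x.1 ⟨zero_le, x.2⟩).1.2
    simp only [F, dif_pos hx, dif_pos hy] at h3
    exact h3

end Pool.Agent.H163Z.ABK
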