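import Mathlib

/-! Clopen Ramsey theorem for shifts (ultrafilter proof) and an abstract game lemma. -/

namespace Pool.Agent.H163Z.ABK

open Filter

def pre (y : ℕ → ℕ) (k : ℕ) : List ℕ := (List.range k).map y

lemma pre_succ (y : ℕ → ℕ) (k : ℕ) : pre y (k + 1) = pre y k ++ [y k] := by
  simp [pre, List.range_succ]

lemma pre_length (y : ℕ → ℕ) (k : ℕ) : (pre y k).length = k := by simp [pre]

lemma pre_eq_iff (y z : ℕ → ℕ) (k : ℕ) : pre y k = pre z k ↔ ∀ i < k, y i = z i := by
  simp [pre, List.map_inj_left]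

lemma mem_pre (y : ℕ → ℕ) (k m : ℕ) : m ∈ pre y k ↔ ∃ i < k, y i = m := by
  simp [pre]

inductive Frc {ι : Type} (c : (ℕ → ℕ) → ι) (a : ι) : List ℕ → Prop
  | base (s : List ℕ) : (∀ y, StrictMono y → pre y s.length = s → c y = a) → Frc c a s
  | step (s : List ℕ) (S : Set ℕ) : S ∈ hyperfilter ℕ → (∀ n ∈ S, Frc c a (s ++ [n])) → Frc c a s

variable {ι : Type} {c : (ℕ → ℕ) → ι}

lemma Frc.ev {a : ι} {s : List ℕ} (h : Frc c a s) : {n | Frc c a (s ++ [n])} ∈ hyperfilter ℕ := by
  cases h with
  | base _ hb =>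
    refine Filter.mem_of_superset Filter.univ_mem fun n _ => ?_
    refine Frc.base _ fun y hy hp => hb y hy ?_
    rw [List.length_append, List.length_singleton, pre_succ] at hp
    exact (List.append_inj' hp rfl).1
  | step _ S hS hn => exact Filter.mem_of_superset hS hn

lemma gt_mem (s : List ℕ) : {n | ∀ m ∈ s, m < n} ∈ hyperfilter ℕ := by
  apply hyperfilter_le_cofinite
  rw [Nat.cofinite_eq_atTop]
  filter_upwards [eventually_gt_atTop s.sum] with n hn m hm
  exact lt_of_le_of_lt (List.single_le_sum (by simp) m hm) hn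

/-- build a strictly increasing sequence all of whose prefixes satisfy `p` -/
lemma build (p : List ℕ → Prop) (h0 : p []) (hs : ∀ s, p s → {n | p (s ++ [n])} ∈ hyperfilter ℕ) :
    ∃ y : ℕ → ℕ, StrictMono y ∧ ∀ k, p (pre y k) := by
  have h1 : ∀ s, ∃ n, p s → p (s ++ [n]) ∧ ∀ m ∈ s, m < n := by
    intro s
    by_cases h : p s
    · obtain ⟨n, hn⟩ := Ultrafilter.nonempty_of_mem (Filter.inter_mem (hs s h) (gt_mem s))
      exact ⟨n, fun _ => hn⟩
    · exact ⟨0, fun h' => (h h').elim⟩
  choose nx hnx using h1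
  let L : ℕ → List ℕ := fun k => Nat.rec [] (fun _ l => l ++ [nx l]) k
  have hL : ∀ k, L (k + 1) = L k ++ [nx (L k)] := fun k => rfl
  have hp : ∀ k, p (L k) := by
    intro k
    induction k with
    | zero => exact h0
    | succ k ih => rw [hL]; exact (hnx _ ih).1
  have hpre : ∀ k, pre (fun k => nx (L k)) k = L k := by
    intro k
    induction k with
    | zero => rfl
    | succ k ih => rw [pre_succ, ih, hL]
  refine ⟨fun k => nx (L k), strictMono_nat_of_lt_succ fun k => ?_, fun k => by rw [hpre]; exact hp k⟩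
  apply (hnx _ (hp (k + 1))).2
  rw [hL]; simp

/-- local constancy on strictly increasing sequences -/
def LC (c : (ℕ → ℕ) → ι) : Prop :=
  ∀ x, StrictMono x → ∃ k, ∀ y, StrictMono y → (∀ i < k, y i = x i) → c y = c x

lemma exists_frc [Finite ι] (hc : LC c) : ∃ a, Frc c a [] := by
  by_contra hne
  push Not at hne
  obtain ⟨y, hy, hp⟩ := build (fun s => ∀ a, ¬ Frc c a s) hne (by
    intro s hs
    have : ∀ a, {n | ¬ Frc c a (s ++ [n])} ∈ hyperfilter ℕ := by
      intro a
      by_contra h
      apply hs a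
      have h2 : {n | ¬ Frc c a (s ++ [n])}ᶜ ∈ hyperfilter ℕ := Ultrafilter.compl_mem_iff_notMem.2 h
      exact Frc.step s _ h2 fun n hn => by simpa using hn
    have h3 : (⋂ a, {n | ¬ Frc c a (s ++ [n])}) ∈ (hyperfilter ℕ : Filter ℕ) :=
      Filter.iInter_mem.2 this
    refine Filter.mem_of_superset h3 fun n hn => ?_
    simpa using hn)
  obtain ⟨k, hk⟩ := hc y hy
  apply hp k (c y)
  refine Frc.base _ fun z hz hzz => hk z hz ?_
  rw [pre_length] at hzz
  exact (pre_eq_iff _ _ _).1 hzz

lemma Frc.uniq {a b : ι} {s : List ℕ} (h : Frc c a s) :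
    (∃ y, StrictMono y ∧ pre y s.length = s) →
    (∀ z, StrictMono z → pre z s.length = s → c z = b) → a = b := by
  induction h with
  | base s hb =>
    rintro ⟨y, hy, hp⟩ hz
    rw [← hb y hy hp, hz y hy hp]
  | step s S hS _ ih =>
    rintro ⟨y, hy, hp⟩ hz
    obtain ⟨n, hn, hn2⟩ := Ultrafilter.nonempty_of_mem (Filter.inter_mem hS (gt_mem s))
    apply ih n hn
    · refine ⟨fun i => if i < s.length then y i else n + (i - s.length), ?_, ?_⟩
      · apply strictMono_nat_of_lt_succ
        intro i
        by_cases h1 : i + 1 < s.length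
        · have h2 : i < s.length := by omega
          simp only [h1, h2, if_true]
          exact hy (Nat.lt_succ_self i)
        · by_cases h2 : i < s.length
          · simp only [h1, h2, if_true, if_false]
            have : y i ∈ s := by
              rw [← hp]; exact (mem_pre _ _ _).2 ⟨i, h2, rfl⟩
            have := hn2 _ this
            omega
          · simp only [h1, h2, if_false]
            omega
      · rw [List.length_append, List.length_singleton, pre_succ]
        simp only [lt_irrefl, if_false, Nat.sub_self, Nat.add_zero]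
        congr 1
        conv_rhs => rw [← hp]
        exact (pre_eq_iff _ _ _).2 fun i hi => by simp [hi]
    · intro z hz1 hz2
      apply hz z hz1
      rw [List.length_append, List.length_singleton, pre_succ] at hz2
      exact (List.append_inj' hz2 rfl).1

lemma pre_shift_suffix (h : ℕ → ℕ) (j k : ℕ) : pre (fun i => h (i + j)) k <:+ pre h (k + j) := by
  induction k with
  | zero => simp [pre]
  | succ k ih =>
    rw [pre_succ, show k + 1 + j = (k + j) + 1 by omega, pre_succ]
    obtain ⟨t, ht⟩ := ih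
    exact ⟨t, by rw [← ht, List.append_assoc]⟩

theorem ramsey_shift [Finite ι] (hc : LC c) :
    ∃ h : ℕ → ℕ, StrictMono h ∧ ∃ a, ∀ j, c (fun i => h (i + j)) = a := by
  obtain ⟨a, ha⟩ := exists_frc hc
  obtain ⟨h, hh, hp⟩ := build (fun s => ∀ t, t <:+ s → Frc c a t) (by
    intro t ht
    rw [List.suffix_nil] at ht
    rwa [ht]) (by
    intro s hs
    have hfin : {t : List ℕ | t <:+ s}.Finite := by
      refine (s.tails.finite_toSet).subset fun t ht => ?_
      simpa using ht
    have h3 : (⋂ t ∈ {t : List ℕ | t <:+ s}, {n | Frc c a (t ++ [n])}) ∈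
        (hyperfilter ℕ : Filter ℕ) :=
      (Filter.biInter_mem hfin).2 fun t ht => (hs t ht).ev
    refine Filter.mem_of_superset h3 fun n hn => ?_
    simp only [Set.mem_iInter, Set.mem_setOf_eq] at hn
    intro t ht
    rcases List.eq_nil_or_concat t with rfl | ⟨t', m, rfl⟩
    · exact ha
    · obtain ⟨u, hu⟩ := ht
      rw [List.concat_eq_append, ← List.append_assoc] at hu
      obtain ⟨h1, h2⟩ := List.append_inj' hu rfl
      rw [List.concat_eq_append, h2]
      exact hn t' ⟨u, h1⟩)
  refine ⟨h, hh, a, fun j => ?_⟩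
  have hm : StrictMono fun i => h (i + j) := fun i i' hi => hh (by omega)
  obtain ⟨k, hk⟩ := hc _ hm
  symm
  apply (hp (k + j) _ (pre_shift_suffix h j k)).uniq
  · exact ⟨_, hm, by rw [pre_length]⟩
  · intro z hz hzz
    rw [pre_length] at hzz
    exact hk z hz ((pre_eq_iff _ _ _).1 hzz)

universe u

def play {St : Type u} (mv : St → St → St) (t : ℕ → St) (x : ℕ → ℕ) : ℕ → ℕ → St
  | 0, i => t (x i)
  | k + 1, i => mv (play mv t x k i) (play mv t x k (i + 1))

lemma play_shift {St : Type u} (mv : St → St → St) (t : ℕ → St) (x : ℕ → ℕ) (j k i : ℕ) :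
    play mv t (fun i => x (i + j)) k i = play mv t x k (i + j) := by
  induction k generalizing i with
  | zero => rfl
  | succ k ih => simp only [play, ih]; rw [show i + 1 + j = i + j + 1 by omega]

lemma play_congr {St : Type u} (mv : St → St → St) (t : ℕ → St) (x y : ℕ → ℕ) (k i : ℕ)
    (h : ∀ j ≤ i + k, y j = x j) : play mv t y k i = play mv t x k i := by
  induction k generalizing i with
  | zero => simp only [play]; rw [h i (by omega)]
  | succ k ih =>
    simp only [play]
    rw [ih i fun j hj => h j (by omega), ih (i + 1) fun j hj => h j (by omega)]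

theorem game {St : Type u} (le : St → St → Prop) (tm : St → Prop) (ch : St → St → Prop)
    (hwf : WellFounded fun a' a => ch a' a ∧ ¬ tm a)
    (htm : ∀ a a', tm a → ch a' a → a' = a)
    (hmv : ∀ a b, ¬ le a b → ∃ a', ch a' a ∧ ∀ b', ch b' b → ¬ le a' b')
    {ι : Type} [Finite ι] (D : ι → St → St → Prop)
    (hD : ∀ a b, tm a → tm b → ¬ le a b → ∃ i, D i a b)
    (hDD : ∀ i (v : ℕ → St), ¬ ∀ n, D i (v n) (v (n + 1)))
    (t : ℕ → St) : ∃ m n, m < n ∧ le (t m) (t n) := by
  classical
  by_contra hbad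
  push Not at hbad
  have h1 : ∀ a b, ∃ a', ¬ le a b → ch a' a ∧ ∀ b', ch b' b → ¬ le a' b' := by
    intro a b
    by_cases h : le a b
    · exact ⟨a, fun h' => (h' h).elim⟩
    · obtain ⟨a', h'⟩ := hmv a b h
      exact ⟨a', fun _ => h'⟩
  choose mv hmv' using h1
  have hnle : ∀ x, StrictMono x → ∀ k i, ¬ le (play mv t x k i) (play mv t x k (i + 1)) := by
    intro x hx k
    induction k with
    | zero => intro i; exact hbad _ _ (hx (Nat.lt_succ_self i))
    | succ k ih =>
      intro i
      exact (hmv' _ _ (ih i)).2 _ (hmv' _ _ (ih (i + 1))).1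
  have hch : ∀ x, StrictMono x → ∀ k i, ch (play mv t x (k + 1) i) (play mv t x k i) :=
    fun x hx k i => (hmv' _ _ (hnle x hx k i)).1
  have hex : ∀ x, StrictMono x → ∀ i, ∃ k, tm (play mv t x k i) := by
    intro x hx i
    by_contra hn
    push Not at hn
    obtain ⟨a, ⟨k, rfl⟩, hmin⟩ := hwf.has_min (Set.range fun k => play mv t x k i) ⟨_, 0, rfl⟩
    exact hmin _ ⟨k + 1, rfl⟩ ⟨hch x hx k i, hn k⟩
  have hst : ∀ x, StrictMono x → ∀ k i, tm (play mv t x k i) → ∀ l, k ≤ l →
      play mv t x l i = play mv t x k i := by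
    intro x hx k i hk l hl
    induction l, hl using Nat.le_induction with
    | base => rfl
    | succ l _ ih =>
      have := htm _ _ (by rw [ih]; exact hk) (hch x hx l i)
      rw [this, ih]
  let val : (ℕ → ℕ) → St := fun x =>
    if h : ∃ k, tm (play mv t x k 0) then play mv t x (Nat.find h) 0 else t 0
  have hval : ∀ x, StrictMono x → ∀ k, tm (play mv t x k 0) → val x = play mv t x k 0 := by
    intro x hx k hk
    have h : ∃ k, tm (play mv t x k 0) := ⟨k, hk⟩
    simp only [val, dif_pos h]
    exact (hst x hx _ 0 (Nat.find_spec h) k (Nat.find_min' h hk)).symm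
  have hsh : ∀ x : ℕ → ℕ, StrictMono x → ∀ j, StrictMono fun i => x (i + j) :=
    fun x hx j i i' hi => hx (by omega)
  have hboth : ∀ x, StrictMono x → ∃ k, tm (play mv t x k 0) ∧ tm (play mv t x k 1) := by
    intro x hx
    obtain ⟨k, hk⟩ := hex x hx 0
    obtain ⟨l, hl⟩ := hex x hx 1
    refine ⟨max k l, ?_, ?_⟩
    · rw [hst x hx k 0 hk _ (le_max_left _ _)]; exact hk
    · rw [hst x hx l 1 hl _ (le_max_right _ _)]; exact hl
  have hval1 : ∀ x, StrictMono x → ∀ k, tm (play mv t x k 1) →
      val (fun i => x (i + 1)) = play mv t x k 1 := by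
    intro x hx k hk
    rw [hval _ (hsh x hx 1) k (by rw [play_shift]; exact hk), play_shift]
  have hDx : ∀ x, StrictMono x → ∃ i, D i (val x) (val fun i => x (i + 1)) := by
    intro x hx
    obtain ⟨k, h0, h1⟩ := hboth x hx
    rw [hval x hx k h0, hval1 x hx k h1]
    exact hD _ _ h0 h1 (hnle x hx k 0)
  obtain ⟨i0, -⟩ := hDx id strictMono_id
  let cc : St → St → ι := fun a b => if h : ∃ i, D i a b then h.choose else i0
  have hcc : ∀ a b, (∃ i, D i a b) → D (cc a b) a b := by
    intro a b h
    simp only [cc, dif_pos h]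
    exact h.choose_spec
  have hLC : LC fun x => cc (val x) (val fun i => x (i + 1)) := by
    intro x hx
    obtain ⟨k, h0, h1⟩ := hboth x hx
    refine ⟨k + 2, fun y hy hxy => ?_⟩
    have e0 : play mv t y k 0 = play mv t x k 0 :=
      play_congr _ _ _ _ _ _ fun j hj => hxy j (by omega)
    have e1 : play mv t y k 1 = play mv t x k 1 :=
      play_congr _ _ _ _ _ _ fun j hj => hxy j (by omega)
    simp only
    rw [hval x hx k h0, hval1 x hx k h1, hval y hy k (by rw [e0]; exact h0),
      hval1 y hy k (by rw [e1]; exact h1), e0, e1]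
  obtain ⟨h, hh, a, ha⟩ := ramsey_shift hLC
  apply hDD a fun j => val fun i => h (i + j)
  intro n
  have h2 := hcc _ _ (hDx _ (hsh h hh n))
  have h3 := ha n
  simp only at h3 h2
  rw [h3] at h2
  have e : (fun i => h (i + 1 + n)) = fun i => h (i + (n + 1)) := by
    funext i; congr 1; omega
  rw [e] at h2
  exact h2

end Pool.Agent.H163Z.ABK
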