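import Pool.Agent.H163Z.ABK.Ramsey

/-! Countable transfinite sequences over a finite-dimensional quasi-order are well-quasi-ordered. -/

namespace Pool.Agent.H163Z.ABK

open Set Order

variable {Q : Type} [Preorder Q]

abbrev O := Ordinal.{0}

def Emb (a b : O) (f : O → Q) (c d : O) (g : O → Q) : Prop :=
  ∃ h : O → O, StrictMonoOn h (Ico a b) ∧ ∀ x ∈ Ico a b, h x ∈ Ico c d ∧ f x ≤ g (h x)

lemma Emb.mono {a b c d a' b' c' d' : O} {f g : O → Q} (h : Emb a b f c d g)
    (ha : a ≤ a') (hb : b' ≤ b) (hc : c' ≤ c) (hd : d ≤ d') : Emb a' b' f c' d' g := by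
  obtain ⟨h, h1, h2⟩ := h
  have hs : Ico a' b' ⊆ Ico a b := Ico_subset_Ico ha hb
  exact ⟨h, h1.mono hs, fun x hx => ⟨Ico_subset_Ico hc hd (h2 x (hs hx)).1, (h2 x (hs hx)).2⟩⟩

lemma Emb.refl (a b : O) (f : O → Q) : Emb a b f a b f :=
  ⟨id, strictMono_id.strictMonoOn _, fun _ hx => ⟨hx, le_rfl⟩⟩

lemma Emb.trans {a b c d e e' : O} {f g k : O → Q} (h : Emb a b f c d g) (h' : Emb c d g e e' k) :
    Emb a b f e e' k := by
  obtain ⟨h, h1, h2⟩ := h
  obtain ⟨h', h1', h2'⟩ := h'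
  refine ⟨fun x => h' (h x), fun x hx y hy hxy => h1' (h2 x hx).1 (h2 y hy).1 (h1 hx hy hxy),
    fun x hx => ⟨(h2' _ (h2 x hx).1).1, (h2 x hx).2.trans (h2' _ (h2 x hx).1).2⟩⟩

lemma Emb.empty {a b c d : O} {f g : O → Q} (h : b ≤ a) : Emb a b f c d g :=
  ⟨id, strictMono_id.strictMonoOn _, fun x hx => absurd (hx.2.trans_le (h.trans hx.1)) (lt_irrefl _)⟩

lemma Emb.glue {a b e c d d' : O} {f g : O → Q} (h : Emb a b f c d g) (h' : Emb b e f d d' g)
    (hc : c ≤ d) (hd : d ≤ d') : Emb a e f c d' g := by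
  classical
  obtain ⟨h, h1, h2⟩ := h
  obtain ⟨h', h1', h2'⟩ := h'
  refine ⟨fun x => if x < b then h x else h' x, fun x hx y hy hxy => ?_, fun x hx => ?_⟩
  · by_cases hy' : y < b
    · have hx' : x < b := hxy.trans hy'
      simp only [hx', hy', if_true]
      exact h1 ⟨hx.1, hx'⟩ ⟨hy.1, hy'⟩ hxy
    · by_cases hx' : x < b
      · simp only [hx', hy', if_true, if_false]
        exact (h2 x ⟨hx.1, hx'⟩).1.2.trans_le (h2' y ⟨not_lt.1 hy', hy.2⟩).1.1
      · simp only [hx', hy', if_false]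
        exact h1' ⟨not_lt.1 hx', hx.2⟩ ⟨not_lt.1 hy', hy.2⟩ hxy
  · by_cases hx' : x < b
    · simp only [hx', if_true]
      exact ⟨Ico_subset_Ico le_rfl hd (h2 x ⟨hx.1, hx'⟩).1, (h2 x ⟨hx.1, hx'⟩).2⟩
    · simp only [hx', if_false]
      exact ⟨Ico_subset_Ico hc le_rfl (h2' x ⟨not_lt.1 hx', hx.2⟩).1,
        (h2' x ⟨not_lt.1 hx', hx.2⟩).2⟩

/-- embeds into a bounded part of every tail -/
def BT (a b : O) (f : O → Q) (c d : O) (g : O → Q) : Prop :=
  ∀ c', c ≤ c' → c' < d → ∃ d', c' ≤ d' ∧ d' < d ∧ Emb a b f c' d' g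

def Ind (f : O → Q) (a b : O) : Prop :=
  a < b ∧ (b = succ a ∨ (IsSuccLimit b ∧ ∀ b' < b, BT a b' f a b f))

def Dec (f : O → Q) (a b : O) : Prop := Relation.ReflTransGen (Ind f) a b

lemma Dec.le {f : O → Q} {a b : O} (h : Dec f a b) : a ≤ b := by
  induction h with
  | refl => exact le_rfl
  | tail _ h ih => exact ih.trans h.1.le

lemma Dec.bt {f g : O → Q} {a e c d : O} (h : Dec f a e)
    (H : ∀ x y, a ≤ x → y ≤ e → Ind f x y → BT x y f c d g) : BT a e f c d g := by
  induction h with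
  | refl => exact fun c' _ h2 => ⟨c', le_rfl, h2, Emb.empty le_rfl⟩
  | @tail b e hab hbe ih =>
    intro c' h1 h2
    obtain ⟨d1, h3, h4, h5⟩ := ih (fun x y hx hy => H x y hx (hy.trans hbe.1.le)) c' h1 h2
    obtain ⟨d2, h6, h7, h8⟩ := H b e (Dec.le hab) le_rfl hbe d1 (h1.trans h3) h4
    exact ⟨d2, h3.trans h6, h7, h5.glue h8 h3 h6⟩

lemma cofinal_seq {a b : O} (hab : a < b) (hb : IsSuccLimit b) (hc : Countable (Iio b)) :
    ∃ s : ℕ → O, s 0 = a ∧ Monotone s ∧ (∀ n, s n < b) ∧ ∀ x < b, ∃ n, x < s (n + 1) := by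
  have : Nonempty (Iio b) := ⟨⟨a, hab⟩⟩
  obtain ⟨e, he⟩ := exists_surjective_nat (Iio b)
  let s : ℕ → O := fun n => Nat.rec a (fun n y => max y (succ (e n).1)) n
  have hs : ∀ n, s (n + 1) = max (s n) (succ (e n).1) := fun n => rfl
  refine ⟨s, rfl, monotone_nat_of_le_succ fun n => by rw [hs]; exact le_max_left _ _, ?_, ?_⟩
  · intro n
    induction n with
    | zero => exact hab
    | succ n ih => rw [hs]; exact max_lt ih (hb.succ_lt (e n).2)
  · intro x hx
    obtain ⟨n, hn⟩ := he ⟨x, hx⟩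
    refine ⟨n, ?_⟩
    rw [hs, hn]
    exact (lt_succ x).trans_le (le_max_right _ _)

lemma glue_omega {f g : O → Q} {a b c d : O} (hab : a < b) (hb : IsSuccLimit b)
    (hc : Countable (Iio b)) (hcd : c < d) (H : ∀ b' < b, BT a b' f c d g) : Emb a b f c d g := by
  classical
  obtain ⟨s, s0, sm, sl, sc⟩ := cofinal_seq hab hb hc
  have h1 : ∀ n c', ∃ d', c ≤ c' → c' < d → c' ≤ d' ∧ d' < d ∧ Emb (s n) (s (n + 1)) f c' d' g := by
    intro n c'
    by_cases h : c ≤ c' ∧ c' < d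
    · obtain ⟨d', h2, h3, h4⟩ := H (s (n + 1)) (sl _) c' h.1 h.2
      exact ⟨d', fun _ _ => ⟨h2, h3, h4.mono (s0 ▸ sm (Nat.zero_le n)) le_rfl le_rfl le_rfl⟩⟩
    · exact ⟨c', fun h2 h3 => (h ⟨h2, h3⟩).elim⟩
  choose nx hnx using h1
  let t : ℕ → O := fun n => Nat.rec c (fun n y => nx n y) n
  have ht : ∀ n, t (n + 1) = nx n (t n) := fun n => rfl
  have ht1 : ∀ n, c ≤ t n ∧ t n < d := by
    intro n
    induction n with
    | zero => exact ⟨le_rfl, hcd⟩
    | succ n ih =>
      rw [ht]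
      exact ⟨ih.1.trans (hnx n _ ih.1 ih.2).1, (hnx n _ ih.1 ih.2).2.1⟩
  have tm : Monotone t := monotone_nat_of_le_succ fun n => (hnx n _ (ht1 n).1 (ht1 n).2).1
  have ht2 : ∀ n, Emb (s n) (s (n + 1)) f (t n) (t (n + 1)) g :=
    fun n => (hnx n _ (ht1 n).1 (ht1 n).2).2.2
  choose h h1 h2 using ht2
  let N : O → ℕ := fun x => if hx : x < b then Nat.find (sc x hx) else 0
  have hN : ∀ x ∈ Ico a b, x ∈ Ico (s (N x)) (s (N x + 1)) := by
    intro x hx
    simp only [N, dif_pos hx.2]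
    refine ⟨?_, Nat.find_spec (sc x hx.2)⟩
    rcases h0 : Nat.find (sc x hx.2) with _ | m
    · rw [s0]; exact hx.1
    · exact not_lt.1 (Nat.find_min (sc x hx.2) (by omega : m < Nat.find (sc x hx.2)))
  refine ⟨fun x => h (N x) x, fun x hx y hy hxy => ?_, fun x hx => ?_⟩
  · rcases lt_trichotomy (N x) (N y) with hl | hl | hl
    · exact (h2 _ x (hN x hx)).1.2.trans_le ((tm hl).trans (h2 _ y (hN y hy)).1.1)
    · have hy' := hN y hy
      simp only [← hl] at hy' ⊢
      exact h1 _ (hN x hx) hy' hxy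
    · exact absurd ((hN y hy).2.trans_le ((sm hl).trans (hN x hx).1)) (not_lt.2 hxy.le)
  · exact ⟨⟨(ht1 _).1.trans (h2 _ x (hN x hx)).1.1, (h2 _ x (hN x hx)).1.2.trans (ht1 (N x + 1)).2⟩,
      (h2 _ x (hN x hx)).2⟩

def HDec (f : O → Q) (b : O) : Prop := ∀ a' b', a' ≤ b' → b' < b → Dec f a' b'

lemma key_move {f g : O → Q} {a b c d : O} (hab : a < b) (hb : IsSuccLimit b)
    (hc : Countable (Iio b)) (hH : HDec f b) (hcd : c < d) (hB : ∀ d' < d, BT c d' g c d g)
    (hne : ¬ Emb a b f c d g) :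
    ∃ x y, a ≤ x ∧ y < b ∧ Ind f x y ∧ ∀ c' d', c ≤ c' → d' < d → ¬ Emb x y f c' d' g := by
  by_contra hn
  push Not at hn
  apply hne
  apply glue_omega hab hb hc hcd
  intro b' hb'
  by_cases hab' : a ≤ b'
  · apply (hH a b' hab' hb').bt
    intro x y hx hy hI
    obtain ⟨c', d', h1, h2, h3⟩ := hn x y hx (hy.trans_lt hb') hI
    intro c'' h4 h5
    obtain ⟨d'', h6, h7, h8⟩ := hB d' h2 c'' h4 h5
    exact ⟨d'', h6, h7, (h3.mono le_rfl le_rfl h1 le_rfl).trans h8⟩
  · exact fun c' _ h2 => ⟨c', le_rfl, h2, Emb.empty (not_le.1 hab').le⟩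

structure Iv (Q : Type) [Preorder Q] where
  a : O
  b : O
  f : O → Q
  ind : Ind f a b
  hd : HDec f b
  ct : Countable (Iio b)

def Iv.le (X Y : Iv Q) : Prop := Emb X.a X.b X.f Y.a Y.b Y.f

def Iv.sg (X : Iv Q) : Prop := X.b = succ X.a

lemma Iv.lim {X : Iv Q} (h : ¬ X.sg) : IsSuccLimit X.b ∧ ∀ b' < X.b, BT X.a b' X.f X.a X.b X.f :=
  X.ind.2.resolve_left h

def sle : Option (Iv Q) → Option (Iv Q) → Prop
  | none, none => True
  | none, some Y => ¬ Y.sg
  | some _, none => False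
  | some X, some Y => X.le Y

def stm : Option (Iv Q) → Prop
  | none => True
  | some X => X.sg

def sch : Option (Iv Q) → Option (Iv Q) → Prop
  | none, none => True
  | none, some X => ¬ X.sg
  | some _, none => False
  | some X', some X => (X.sg ∧ X' = X) ∨ (¬ X.sg ∧ X'.f = X.f ∧ X.a ≤ X'.a ∧ X'.b < X.b)

def srk : Option (Iv Q) → O
  | none => 0
  | some X => X.b

lemma ct_mono {b b' : O} (h : b' ≤ b) (hc : Countable (Iio b)) : Countable (Iio b') :=
  (Set.inclusion_injective (Iio_subset_Iio h)).countable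

/-- `Q` is finite-dimensional: finitely many maps to a well-founded relation control the order -/
def FD (Q : Type) [Preorder Q] : Prop :=
  ∃ (ι W : Type) (_ : Finite ι) (r : W → W → Prop) (g : ι → Q → W), WellFounded r ∧
    ∀ p q : Q, (∀ i, ¬ r (g i q) (g i p)) → p ≤ q

theorem iv_wqo (hQ : FD Q) (t : ℕ → Iv Q) : ∃ m n, m < n ∧ (t m).le (t n) := by
  obtain ⟨ι, W, _, r, g, hr, hg⟩ := hQ
  let D : ι ⊕ Bool → Option (Iv Q) → Option (Iv Q) → Prop := fun i A B =>
    match i with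
    | Sum.inl i => ∃ X Y, A = some X ∧ B = some Y ∧ r (g i (Y.f Y.a)) (g i (X.f X.a))
    | Sum.inr true => A = none ∧ B ≠ none
    | Sum.inr false => A ≠ none ∧ B = none
  refine game sle stm sch ?_ ?_ ?_ D ?_ ?_ (fun n => some (t n))
  · refine Subrelation.wf (r := InvImage (· < ·) srk) ?_ (InvImage.wf _ wellFounded_lt)
    rintro (_ | X') (_ | X) ⟨h1, h2⟩
    · exact (h2 trivial).elim
    · exact (pos_of_gt X.ind.1 : (0 : O) < X.b)
    · exact h1.elim
    · rcases h1 with h1 | h1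
      · exact (h2 h1.1).elim
      · exact h1.2.2.2
  · rintro (_ | X) (_ | X') h1 h2
    · rfl
    · exact h2.elim
    · exact (h2 h1).elim
    · rcases h2 with h2 | h2
      · rw [h2.2]
      · exact (h2.1 h1).elim
  · rintro (_ | X) (_ | Y) h
    · exact (h trivial).elim
    · refine ⟨none, trivial, ?_⟩
      have hY : Y.sg := not_not.1 h
      rintro (_ | Y') h'
      · exact (h' hY).elim
      · rcases h' with h' | h'
        · rw [h'.2]; exact h
        · exact (h'.1 hY).elim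
    · by_cases hX : X.sg
      · refine ⟨some X, Or.inl ⟨hX, rfl⟩, ?_⟩
        rintro (_ | Y') h'
        · exact h
        · exact h'.elim
      · have hl := (Iv.lim hX).1.succ_lt X.ind.1
        refine ⟨some ⟨X.a, succ X.a, X.f, ⟨lt_succ _, Or.inl rfl⟩,
          fun a' b' h1 h2 => X.hd a' b' h1 (h2.trans hl), ct_mono hl.le X.ct⟩,
          Or.inr ⟨hX, rfl, le_rfl, hl⟩, ?_⟩
        rintro (_ | Y') h'
        · exact id
        · exact h'.elim
    · by_cases hX : X.sg
      · refine ⟨some X, Or.inl ⟨hX, rfl⟩, ?_⟩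
        rintro (_ | Y') h'
        · exact id
        · rcases h' with h' | ⟨-, h1, h2, h3⟩
          · rw [h'.2]; exact h
          · intro h4
            apply h
            have h5 : Emb X.a X.b X.f Y'.a Y'.b Y'.f := h4
            rw [h1] at h5
            exact h5.mono le_rfl le_rfl h2 h3.le
      · by_cases hY : Y.sg
        · refine ⟨none, hX, ?_⟩
          rintro (_ | Y') h'
          · exact (h' hY).elim
          · rcases h' with h' | h'
            · rw [h'.2]; exact fun h => h hY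
            · exact (h'.1 hY).elim
        · obtain ⟨x, y, h1, h2, h3, h4⟩ :=
            key_move X.ind.1 (Iv.lim hX).1 X.ct X.hd Y.ind.1 (Iv.lim hY).2 h
          refine ⟨some ⟨x, y, X.f, h3, fun a' b' h5 h6 => X.hd a' b' h5 (h6.trans h2),
            ct_mono h2.le X.ct⟩, Or.inr ⟨hX, rfl, h1, h2⟩, ?_⟩
          rintro (_ | Y') h'
          · exact id
          · rcases h' with h' | ⟨-, h5, h6, h7⟩
            · exact (hY h'.1).elim
            · intro h8
              have h9 : Emb x y X.f Y'.a Y'.b Y'.f := h8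
              rw [h5] at h9
              exact h4 _ _ h6 h7 h9
  · rintro (_ | X) (_ | Y) h1 h2 h
    · exact (h trivial).elim
    · exact ⟨Sum.inr true, rfl, by simp⟩
    · exact ⟨Sum.inr false, by simp, rfl⟩
    · have : ¬ X.f X.a ≤ Y.f Y.a := by
        intro hle
        apply h
        have h1' : X.b = succ X.a := h1
        have hx : ∀ x ∈ Ico X.a X.b, x = X.a := fun x hx =>
          le_antisymm (lt_succ_iff.1 (h1' ▸ hx.2)) hx.1
        refine ⟨fun _ => Y.a, fun x hx' y hy' hxy => ?_, fun x hx' => ⟨⟨le_rfl, Y.ind.1⟩, ?_⟩⟩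
        · rw [hx x hx', hx y hy'] at hxy
          exact absurd hxy (lt_irrefl _)
        · rw [hx x hx']; exact hle
      by_contra hn
      apply this
      apply hg
      intro i hi
      exact hn ⟨Sum.inl i, X, Y, rfl, rfl, hi⟩
  · rintro (i | _ | _) v hv
    · have h1 : ∀ n, ∃ X, v n = some X := by
        intro n
        obtain ⟨X, _, h, _⟩ := hv n
        exact ⟨X, h⟩
      choose X hX using h1
      have h2 : ∀ n, r (g i ((X (n + 1)).f (X (n + 1)).a)) (g i ((X n).f (X n).a)) := by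
        intro n
        obtain ⟨A, B, hA, hB, h⟩ := hv n
        rw [hX] at hA hB
        rw [Option.some.inj hA, Option.some.inj hB]
        exact h
      obtain ⟨_, ⟨k, rfl⟩, hmin⟩ :=
        hr.has_min (Set.range fun n => g i ((X n).f (X n).a)) ⟨_, 0, rfl⟩
      exact hmin _ ⟨k + 1, rfl⟩ (h2 k)
    · exact (hv 1).1 (hv 0).2
    · exact (hv 0).2 (hv 1).1

theorem dec_all (hQ : FD Q) (f : O → Q) (b : O) : Countable (Iio b) → ∀ a ≤ b, Dec f a b := by
  induction b using WellFoundedLT.induction with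
  | ind b ih =>
    intro hc a hab
    have hH : HDec f b := fun a' b' h1 h2 => ih b' h2 (ct_mono h2.le hc) a' h1
    rcases hab.eq_or_lt with rfl | hab
    · exact Relation.ReflTransGen.refl
    by_cases hb : IsSuccLimit b
    · suffices h : ∃ c, a ≤ c ∧ Ind f c b by
        obtain ⟨c, h1, h2⟩ := h
        exact Relation.ReflTransGen.tail (hH a c h1 h2.1) h2
      by_contra hn
      push Not at hn
      have h1 : ∀ c, ∃ p : Iv Q × O, a ≤ c → c < b → p.1.f = f ∧ c ≤ p.1.a ∧ p.1.b < b ∧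
          c ≤ p.2 ∧ p.2 < b ∧ ∀ d', p.2 ≤ d' → d' < b → ¬ Emb p.1.a p.1.b f p.2 d' f := by
        intro c
        by_cases h : a ≤ c ∧ c < b
        · have h2 : ¬ ∀ b' < b, BT c b' f c b f := fun h2 => hn c h.1 ⟨h.2, Or.inr ⟨hb, h2⟩⟩
          push Not at h2
          obtain ⟨b', h3, h4⟩ := h2
          have h5 : c ≤ b' := by
            by_contra h5
            exact h4 fun c' _ h2 => ⟨c', le_rfl, h2, Emb.empty (not_le.1 h5).le⟩
          have h6 : ¬ ∀ x y, c ≤ x → y ≤ b' → Ind f x y → BT x y f c b f :=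
            fun h6 => h4 ((hH c b' h5 h3).bt h6)
          push Not at h6
          obtain ⟨x, y, h7, h8, h9, h10⟩ := h6
          unfold BT at h10
          push Not at h10
          obtain ⟨c', h11, h12, h13⟩ := h10
          have hy : y < b := h8.trans_lt h3
          exact ⟨(⟨x, y, f, h9, fun a' b' h5 h6 => hH a' b' h5 (h6.trans hy), ct_mono hy.le hc⟩, c'),
            fun _ _ => ⟨rfl, h7, hy, h11, h12, h13⟩⟩
        · have hl := hb.succ_lt hab
          exact ⟨(⟨a, succ a, f, ⟨lt_succ _, Or.inl rfl⟩,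
            fun a' b' h1 h2 => hH a' b' h1 (h2.trans hl), ct_mono hl.le hc⟩, a),
            fun h2 h3 => (h ⟨h2, h3⟩).elim⟩
      choose p hp using h1
      let s : ℕ → O := fun n => Nat.rec a (fun _ y => (p y).2) n
      have hs : ∀ n, s (n + 1) = (p (s n)).2 := fun n => rfl
      have hs1 : ∀ n, a ≤ s n ∧ s n < b := by
        intro n
        induction n with
        | zero => exact ⟨le_rfl, hab⟩
        | succ n ih2 =>
          rw [hs]
          exact ⟨ih2.1.trans (hp _ ih2.1 ih2.2).2.2.2.1, (hp _ ih2.1 ih2.2).2.2.2.2.1⟩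
      have sm : Monotone s :=
        monotone_nat_of_le_succ fun n => (hp _ (hs1 n).1 (hs1 n).2).2.2.2.1
      obtain ⟨m, n, hmn, hle⟩ := iv_wqo hQ fun n => (p (s n)).1
      obtain ⟨e1, -, -, -, -, e6⟩ := hp _ (hs1 m).1 (hs1 m).2
      obtain ⟨e7, e8, e9, -, -, -⟩ := hp _ (hs1 n).1 (hs1 n).2
      have h2 : Emb (p (s m)).1.a (p (s m)).1.b (p (s m)).1.f
        (p (s n)).1.a (p (s n)).1.b (p (s n)).1.f := hle
      rw [e1, e7] at h2
      have h3 : (p (s m)).2 ≤ (p (s n)).1.a := ((hs m).symm.le.trans (sm hmn)).trans e8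
      exact e6 _ (h3.trans (p (s n)).1.ind.1.le) e9 (h2.mono le_rfl le_rfl h3 le_rfl)
    · have hne : ¬ IsMin b := not_isMin_of_lt hab
      obtain ⟨b', rfl⟩ : ∃ b', succ b' = b := by
        rcases not_isSuccLimit_iff.1 hb with h | h
        · exact (hne h).elim
        · obtain ⟨b', -, h'⟩ := not_isSuccPrelimit_iff_succ_eq.1 h
          exact ⟨b', h'⟩
      exact Relation.ReflTransGen.tail (hH a b' (lt_succ_iff.1 hab) (lt_succ _))
        ⟨lt_succ _, Or.inl rfl⟩

inductive Ch (f : O → Q) : O → O → List (Iv Q) → Prop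
  | nil (a : O) : Ch f a a []
  | cons (X : Iv Q) (e : O) (l : List (Iv Q)) : X.f = f → Ch f X.b e l → Ch f X.a e (X :: l)

lemma Ch.le {f : O → Q} {a e : O} {l : List (Iv Q)} (h : Ch f a e l) : a ≤ e := by
  induction h with
  | nil => exact le_rfl
  | cons X e l _ _ ih => exact X.ind.1.le.trans ih

lemma exists_ch (hQ : FD Q) (f : O → Q) {a b : O} (hc : Countable (Iio b)) (h : Dec f a b) :
    ∃ l, Ch f a b l := by
  induction h using Relation.ReflTransGen.head_induction_on with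
  | refl => exact ⟨[], Ch.nil _⟩
  | @head a c hac hcb ih =>
    obtain ⟨l, hl⟩ := ih
    have hc' := ct_mono hl.le hc
    exact ⟨_, Ch.cons ⟨a, c, f, hac, fun a' b' h1 h2 => dec_all hQ f b' (ct_mono h2.le hc') a' h1,
      hc'⟩ b l rfl hl⟩

lemma emb_of_sub {l l' : List (Iv Q)} (h : List.SublistForall₂ Iv.le l l') :
    ∀ {f g : O → Q} {a e c d : O}, Ch f a e l → Ch g c d l' → Emb a e f c d g := by
  induction h with
  | nil =>
    intro f g a e c d h1 _
    cases h1
    exact Emb.empty le_rfl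
  | @cons X Y l l' hXY _ ih =>
    intro f g a e c d h1 h2
    cases h1 with
    | cons _ _ _ e1 h1 =>
      cases h2 with
      | cons _ _ _ e2 h2 =>
        have h3 : Emb X.a X.b X.f Y.a Y.b Y.f := hXY
        rw [e1, e2] at h3
        exact h3.glue (ih h1 h2) Y.ind.1.le h2.le
  | @cons_right Y l l' _ ih =>
    intro f g a e c d h1 h2
    cases h2 with
    | cons _ _ _ e2 h2 => exact (ih h1 h2).mono le_rfl le_rfl Y.ind.1.le le_rfl

instance ivPre : IsPreorder (Iv Q) Iv.le where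
  refl X := Emb.refl _ _ _
  trans _ _ _ h h' := Emb.trans h h'

theorem seq_wqo (hQ : FD Q) (o : ℕ → O) (f : ℕ → O → Q) (hc : ∀ n, Countable (Iio (o n))) :
    ∃ m n, m < n ∧ Emb 0 (o m) (f m) 0 (o n) (f n) := by
  have h1 : ∀ n, ∃ l, Ch (f n) 0 (o n) l :=
    fun n => exists_ch hQ _ (hc n) (dec_all hQ _ _ (hc n) 0 zero_le)
  choose l hl using h1
  have h2 : (univ : Set (Iv Q)).PartiallyWellOrderedOn Iv.le :=
    Set.partiallyWellOrderedOn_iff_exists_lt.2 fun t _ => iv_wqo hQ t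
  obtain ⟨m, n, hmn, h⟩ := (h2.partiallyWellOrderedOn_sublistForall₂ Iv.le).exists_lt (f := l)
    (fun n => by simp)
  exact ⟨m, n, hmn, emb_of_sub h (hl m) (hl n)⟩

end Pool.Agent.H163Z.ABK
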